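import Mathlib

set_option autoImplicit false

namespace Pool.Agent.Results.MP_078e15_co.All

open Pointwise

/-- `pw A h` is the product set of `h + 1` copies of `A`. -/
def pw {S : Type} [Mul S] (A : Set S) : ℕ → Set S
  | 0 => A
  | h + 1 => pw A h * A

inductive W (X : Set ℕ) : Type
  | o : W X
  | e : ℕ → ℕ → ℕ → W X

open W

open Classical in
noncomputable def el (X : Set ℕ) (h r i : ℕ) : W X :=
  if i < h then e h r i else if i = h ∧ h ∉ X then e h 0 h else o

open Classical in
noncomputable def mul (X : Set ℕ) : W X → W X → W X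
  | e h r i, e h' r' j => if h = h' ∧ r = r' ∧ 0 < i ∧ 0 < j then el X h r (i + j) else o
  | _, _ => o

theorem mul_o (X : Set ℕ) (a : W X) : mul X a o = o := by cases a <;> rfl

theorem o_mul (X : Set ℕ) (a : W X) : mul X o a = o := by cases a <;> rfl

open Classical in
theorem mul_e (X : Set ℕ) (h r i h' r' j : ℕ) : mul X (e h r i) (e h' r' j) =
    if h = h' ∧ r = r' ∧ 0 < i ∧ 0 < j then el X h r (i + j) else o := rfl

noncomputable instance (X : Set ℕ) : Semigroup (W X) where
  mul := mul X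
  mul_assoc := by
    rintro (_ | ⟨h, r, i⟩) (_ | ⟨h', r', j⟩) (_ | ⟨h'', r'', k⟩) <;>
      change mul X (mul X _ _) _ = mul X _ (mul X _ _) <;> try simp only [o_mul, mul_o]
    rw [mul_e, mul_e]
    unfold el
    split_ifs <;> simp only [mul_e, el, o_mul, mul_o] <;> grind

theorem result (X : Set ℕ) (h1 : 1 ∈ X) : ∃ (S : Type) (_ : Semigroup S) (A : ℕ → Set S),
    (∀ q, A (q + 1) ⊆ A q) ∧ (∀ q, ∃ q' ≥ q, A (q' + 1) ≠ A q') ∧
    ∀ h, pw (⋂ q, A q) h = ⋂ q, pw (A q) h ↔ h + 1 ∈ X := by
  let A : ℕ → Set (W X) := fun q => {x | x = o ∨ ∃ h r, 2 ≤ h ∧ q ≤ r ∧ x = e h r 1}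
  have hm : ∀ a b : W X, a * b = mul X a b := fun _ _ => rfl
  have h0 : ⋂ q, A q = {o} := by
    ext x
    simp only [Set.mem_iInter, Set.mem_singleton_iff]
    refine ⟨fun h => ?_, fun h q => Or.inl h⟩
    rcases h 0 with g | ⟨a, r, -, -, rfl⟩
    · exact g
    · rcases h (r + 1) with g | ⟨a', r', -, h2, g⟩
      · exact g
      · cases g; omega
  have h2 : ∀ h, pw ({o} : Set (W X)) h = {o} := by
    intro h
    induction h with
    | zero => rfl
    | succ h ih => rw [pw, ih, Set.singleton_mul_singleton]; rfl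
  have h3 : ∀ q h x, x ∈ pw (A q) h ↔ x = o ∨ ∃ a r, 2 ≤ a ∧ q ≤ r ∧ x = el X a r (h + 1) := by
    intro q h
    induction h with
    | zero =>
      intro x
      refine or_congr_right (exists₂_congr fun a r => and_congr_right fun ha => ?_)
      rw [el, if_pos (by omega)]
    | succ h ih =>
      intro x
      rw [pw, Set.mem_mul]
      constructor
      · rintro ⟨y, hy, z, hz, rfl⟩
        rcases (ih y).mp hy with rfl | ⟨a, r, ha, hr, rfl⟩
        · exact Or.inl rfl
        rcases hz with rfl | ⟨a', r', ha', hr', rfl⟩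
        · exact Or.inl (mul_o X _)
        rw [hm]
        by_cases g : h + 1 < a ∧ a = a' ∧ r = r'
        · obtain ⟨g, rfl, rfl⟩ := g
          exact Or.inr ⟨a, r, ha, hr, by rw [el, if_pos g]; simp [mul_e]⟩
        · left
          unfold el
          split_ifs <;> simp only [mul_e, el, o_mul] <;> grind
      · rintro (rfl | ⟨a, r, ha, hr, rfl⟩)
        · exact ⟨o, (ih _).mpr (Or.inl rfl), o, Or.inl rfl, rfl⟩
        · by_cases g : h + 1 < a
          · exact ⟨_, (ih _).mpr (Or.inr ⟨a, r, ha, hr, rfl⟩), _, Or.inr ⟨a, r, ha, hr, rfl⟩,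
              by rw [hm, el, if_pos g]; simp [mul_e]⟩
          · refine ⟨o, (ih _).mpr (Or.inl rfl), o, Or.inl rfl, ?_⟩
            rw [el, if_neg (by omega), if_neg (by omega)]; rfl
  refine ⟨W X, inferInstance, A, fun q x hx => hx.imp_right fun ⟨a, r, h1, h2, h3⟩ =>
    ⟨a, r, h1, by omega, h3⟩, fun q => ⟨q, le_rfl, fun g => ?_⟩, fun h => ?_⟩
  · have : (e 2 q 1 : W X) ∈ A q := Or.inr ⟨2, q, le_rfl, le_rfl, rfl⟩
    rw [← g] at this
    rcases this with g | ⟨a, r, -, h2, g⟩ <;> cases g
    omega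
  · rw [h0, h2]
    constructor
    · intro g
      by_contra hX
      have h4 : h ≠ 0 := fun g => hX (by rwa [g])
      have : (e (h + 1) 0 (h + 1) : W X) ∈ ⋂ q, pw (A q) h := Set.mem_iInter.mpr fun q =>
        (h3 q h _).mpr (Or.inr ⟨h + 1, q, by omega, le_rfl, by simp [el, hX]⟩)
      rw [← g] at this
      cases this
    · intro hX
      symm
      ext x
      simp only [Set.mem_iInter, Set.mem_singleton_iff, h3]
      refine ⟨fun g => ?_, fun g q => Or.inl g⟩
      rcases g 0 with e' | ⟨a, r, -, -, rfl⟩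
      · exact e'
      · rcases g (r + 1) with e' | ⟨a', r', -, h5, e'⟩
        · exact e'
        · unfold el at e' ⊢
          split_ifs at e' ⊢ <;> first | rfl | cases e' <;> grind | grind

end Pool.Agent.Results.MP_078e15_co.All
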